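import Pool.Agent.W29.RT.LOW4

/-!
# EC/FAM4: coprime pairs give curves with `Z/2 x Z/4`, by height

Project EC (helper870); this part by helper704 (light imports).
-/

set_option autoImplicit false

namespace Pool.Agent.N704.EC

open Finset

open scoped Classical

open Pool.Agent.W307.RT (Cv)
open Pool.Agent.W29.RT (cf mem_cv cf_inj)

/-- A literal copy of `Pool.Agent.N870.EC.cd`. -/
def cd (a b : ℤ) : ℤ × ℤ :=
  (-27 * (a ^ 4 - a ^ 2 * b ^ 2 + b ^ 4), -27 * (a ^ 2 + b ^ 2) * (2 * a ^ 2 - b ^ 2) *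
    (2 * b ^ 2 - a ^ 2))

theorem cd_eq (a b : ℕ) : cd a b = cf (a, b) := by
  refine Prod.ext rfl ?_
  show -27 * ((a : ℤ) ^ 2 + (b : ℤ) ^ 2) * (2 * (a : ℤ) ^ 2 - (b : ℤ) ^ 2) *
    (2 * (b : ℤ) ^ 2 - (a : ℤ) ^ 2) = 27 * (((a : ℤ) ^ 2 + (b : ℤ) ^ 2) *
      (2 * (a : ℤ) ^ 2 - (b : ℤ) ^ 2) * ((a : ℤ) ^ 2 - 2 * (b : ℤ) ^ 2))
  ring

theorem cd_comm (a b : ℤ) : cd a b = cd b a := by
  simp only [cd, Prod.mk.injEq]
  constructor <;> ring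

theorem card_le_one_of {P : ℕ × ℕ → Prop} [DecidablePred P] (X : ℕ) (c : ℤ × ℤ)
    (h : ∀ t t' : ℕ × ℕ, 1 ≤ t.1 → 1 ≤ t.2 → 1 ≤ t'.1 → 1 ≤ t'.2 → P t → P t' →
      cd t.1 t.2 = cd t'.1 t'.2 → t = t') :
    ((Icc 1 X ×ˢ Icc 1 X).filter (fun t : ℕ × ℕ => cd t.1 t.2 = c ∧ P t)).card ≤ 1 := by
  rw [card_le_one]
  intro t ht t' ht'
  rw [mem_filter, mem_product, mem_Icc, mem_Icc] at ht ht'
  exact h t t' ht.1.1.1 ht.1.2.1 ht'.1.1.1 ht'.1.2.1 ht.2.2 ht'.2.2 (ht.2.1.trans ht'.2.1.symm)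

theorem inj_lt {t t' : ℕ × ℕ} (h1 : 1 ≤ t.2) (h1' : 1 ≤ t'.2) (h2 : t.2 < t.1) (h2' : t'.2 < t'.1)
    (h : cd t.1 t.2 = cd t'.1 t'.2) : t = t' := by
  rw [cd_eq, cd_eq] at h
  simp only [cf, Prod.mk.injEq] at h
  obtain ⟨e1, e2⟩ := cf_inj (by exact_mod_cast h1) (by exact_mod_cast h2)
    (by exact_mod_cast h1') (by exact_mod_cast h2') h.1 h.2
  exact Prod.ext (by exact_mod_cast e1) (by exact_mod_cast e2)

theorem fam4 : ∃ K : ℕ, ∀ X H : ℕ, K * X ^ 12 ≤ H →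
    (∀ a b : ℕ, 1 ≤ a → a ≤ X → 1 ≤ b → b ≤ X → a.Coprime b → a ≠ b → cd a b ∈ Cv 4 H) ∧
    ∀ c : ℤ × ℤ, ((Icc 1 X ×ˢ Icc 1 X).filter
      (fun t : ℕ × ℕ => cd t.1 t.2 = c)).card ≤ 6 := by
  refine ⟨2000000, fun X H hH => ⟨?_, ?_⟩⟩
  · intro a b ha haX hb hbX hc hne
    rcases lt_or_gt_of_ne hne with h | h
    · rw [cd_comm, cd_eq]
      exact mem_cv ha h hbX hc.symm hH
    · rw [cd_eq]
      exact mem_cv hb h haX hc hH
  · intro c
    have h1 := card_le_one_of (P := fun t => t.2 < t.1) X c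
      fun t t' _ h2 _ h2' h3 h3' h4 => inj_lt h2 h2' h3 h3' h4
    have h2 := card_le_one_of (P := fun t => t.1 < t.2) X c
      fun t t' h1 _ h1' _ h3 h3' h4 => by
        rw [cd_comm, cd_comm (t'.1 : ℤ)] at h4
        have := inj_lt (t := (t.2, t.1)) (t' := (t'.2, t'.1)) h1 h1' h3 h3' h4
        rw [Prod.mk.injEq] at this
        exact Prod.ext this.2 this.1
    have h3 := card_le_one_of (P := fun t => t.1 = t.2) X c
      fun t t' h1 _ h1' _ h3 h3' h4 => by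
        have e1 : ((t.1 : ℤ)) ^ 4 = (t'.1 : ℤ) ^ 4 := by
          have := congrArg Prod.fst h4
          simp only [cd] at this
          rw [← h3, ← h3'] at this
          linarith
        have e2 : t.1 ^ 4 = t'.1 ^ 4 := by exact_mod_cast e1
        have e3 : t.1 = t'.1 := Nat.pow_left_injective (by norm_num : 4 ≠ 0) e2
        exact Prod.ext e3 (by rw [← h3, ← h3', e3])
    have h4 : (Icc 1 X ×ˢ Icc 1 X).filter (fun t : ℕ × ℕ => cd t.1 t.2 = c) ⊆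
        ((Icc 1 X ×ˢ Icc 1 X).filter (fun t : ℕ × ℕ => cd t.1 t.2 = c ∧ t.2 < t.1) ∪
        (Icc 1 X ×ˢ Icc 1 X).filter (fun t : ℕ × ℕ => cd t.1 t.2 = c ∧ t.1 < t.2)) ∪
        (Icc 1 X ×ˢ Icc 1 X).filter (fun t : ℕ × ℕ => cd t.1 t.2 = c ∧ t.1 = t.2) := by
      intro t ht
      rw [mem_filter] at ht
      rw [mem_union, mem_union, mem_filter, mem_filter, mem_filter]
      rcases lt_trichotomy t.1 t.2 with h | h | h
      · exact Or.inl (Or.inr ⟨ht.1, ht.2, h⟩)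
      · exact Or.inr ⟨ht.1, ht.2, h⟩
      · exact Or.inl (Or.inl ⟨ht.1, ht.2, h⟩)
    have h5 := (card_le_card h4).trans ((card_union_le _ _).trans
      (Nat.add_le_add_right (card_union_le _ _) _))
    omega

end Pool.Agent.N704.EC
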