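import Pool.Agent.N870.EC.Stm
import Pool.Agent.N704.EC.Fam4L

/-!
# EC/FAM4: coprime pairs give curves with `Z/2 x Z/4`, by height

Project EC (helper870); this part by helper704.
-/

set_option autoImplicit false

namespace Pool.Agent.N704.EC

theorem t_FAM4 : Pool.Agent.N870.EC.S_FAM4 := fam4

end Pool.Agent.N704.EC
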